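import Pool.Agent.Lib.MP_ae9c87_an.Transport

set_option autoImplicit false

open Filter Topology

namespace Pool.Agent.Results.MP_ae9c87_an.UnitaryGroup

universe u

variable {H : Type u} [NormedAddCommGroup H] [InnerProductSpace ℂ H] [CompleteSpace H]

/-- `T` is a one-parameter group of unitary operators, continuous in operator norm. -/
def IsUnitaryGroup (T : ℝ → H →L[ℂ] H) : Prop :=
  (∀ t : ℝ, Function.Surjective (T t)) ∧ (∀ (t : ℝ) (x y : H), inner ℂ (T t x) (T t y) = inner ℂ x y) ∧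
    T 0 = 1 ∧ (∀ s t : ℝ, T (s + t) = T s * T t) ∧ Continuous T

/-- The bounded operator `A` is the generator of `T`: `(T t - 1) / t → A` in operator norm. -/
def IsGenerator (T : ℝ → H →L[ℂ] H) (A : H →L[ℂ] H) : Prop :=
  Tendsto (fun t : ℝ => t⁻¹ • (T t - 1)) (𝓝[≠] 0) (𝓝 A)

/-- `V = (A + 1) (A - 1)⁻¹`, where `A - 1` is invertible. -/
def IsCayley (A V : H →L[ℂ] H) : Prop :=
  IsUnit (A - 1) ∧ V = (A + 1) * Ring.inverse (A - 1)

/-- `⟨T(t) x, y⟩ → 0` as `t → ∞` for all `x, y`. -/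
def GroupWeaklyStable (T : ℝ → H →L[ℂ] H) : Prop :=
  ∀ x y : H, Tendsto (fun t : ℝ => inner ℂ (T t x) y) atTop (𝓝 0)

/-- `⟨V ^ n x, y⟩ → 0` as `n → ∞` for all `x, y`. -/
def OperatorWeaklyStable (V : H →L[ℂ] H) : Prop :=
  ∀ x y : H, Tendsto (fun n : ℕ => inner ℂ ((V ^ n) x) y) atTop (𝓝 0)

/-- On every infinite-dimensional separable complex Hilbert space there is a one-parameter unitary
group `T`, continuous in operator norm, with bounded skew-adjoint generator `A`, `‖A‖ ≤ 2`, whose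
cogenerator `V = (A + 1) (A - 1)⁻¹` is weakly stable although `T` is not weakly stable. -/
theorem result (H : Type u) [NormedAddCommGroup H] [InnerProductSpace ℂ H] [CompleteSpace H]
    [TopologicalSpace.SeparableSpace H] (hH : ¬ FiniteDimensional ℂ H) :
    ∃ (T : ℝ → H →L[ℂ] H) (A V : H →L[ℂ] H),
      IsUnitaryGroup T ∧ IsGenerator T A ∧ ContinuousLinearMap.adjoint A = -A ∧ ‖A‖ ≤ 2 ∧
      IsCayley A V ∧ OperatorWeaklyStable V ∧ ¬ GroupWeaklyStable T := by
  obtain ⟨e⟩ := Lib.MP_ae9c87_an.exists_iso H hH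
  let F := e.conjStarAlgEquiv
  have hFc : Continuous F := (StarAlgEquiv.isometry F).continuous
  have hFr : ∀ (r : ℝ) (S : Lib.MP_ae9c87_an.H →L[ℂ] Lib.MP_ae9c87_an.H), F (r • S) = r • F S := by
    intro r S
    have h1 : r • S = (r : ℂ) • S := by ext1 z; exact (Complex.coe_smul r (S z)).symm
    have h2 : r • F S = (r : ℂ) • F S := by ext1 z; exact (Complex.coe_smul r (F S z)).symm
    rw [h1, h2, map_smul]
  refine ⟨fun t => F (Lib.MP_ae9c87_an.T t), F Lib.MP_ae9c87_an.Ag, F Lib.MP_ae9c87_an.Vg,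
    ⟨?_, ?_, ?_, ?_, ?_⟩, ?_, ?_, ?_, ⟨?_, ?_⟩, ?_, ?_⟩
  · intro t x
    refine ⟨F (Lib.MP_ae9c87_an.T (-t)) x, ?_⟩
    have h2 := Lib.MP_ae9c87_an.T_add t (-t)
    rw [add_neg_cancel, Lib.MP_ae9c87_an.T_zero] at h2
    have h3 := congrArg F h2
    rw [map_mul, map_one] at h3
    exact (congrArg (fun S : H →L[ℂ] H => S x) h3).symm
  · intro t x y
    have h3 : ContinuousLinearMap.adjoint (Lib.MP_ae9c87_an.T t) * Lib.MP_ae9c87_an.T t = 1 :=
      (Unitary.mem_iff.1 (Lib.MP_ae9c87_an.T_unitary t)).1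
    have h4 : ∀ u v : Lib.MP_ae9c87_an.H,
        inner ℂ (Lib.MP_ae9c87_an.T t u) (Lib.MP_ae9c87_an.T t v) = inner ℂ u v := by
      intro u v
      calc inner ℂ (Lib.MP_ae9c87_an.T t u) (Lib.MP_ae9c87_an.T t v)
          = inner ℂ u ((ContinuousLinearMap.adjoint (Lib.MP_ae9c87_an.T t))
              (Lib.MP_ae9c87_an.T t v)) := by
            rw [ContinuousLinearMap.adjoint_inner_right]
        _ = inner ℂ u ((ContinuousLinearMap.adjoint (Lib.MP_ae9c87_an.T t) *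
              Lib.MP_ae9c87_an.T t) v) := rfl
        _ = inner ℂ u v := by rw [h3]; rfl
    change inner ℂ (e (Lib.MP_ae9c87_an.T t (e.symm x))) (e (Lib.MP_ae9c87_an.T t (e.symm y))) = _
    rw [e.inner_map_map, h4, e.symm.inner_map_map]
  · change F (Lib.MP_ae9c87_an.T 0) = 1
    rw [Lib.MP_ae9c87_an.T_zero, map_one]
  · intro s t
    change F (Lib.MP_ae9c87_an.T (s + t)) = F (Lib.MP_ae9c87_an.T s) * F (Lib.MP_ae9c87_an.T t)
    rw [Lib.MP_ae9c87_an.T_add, map_mul]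
  · exact hFc.comp Lib.MP_ae9c87_an.T_continuous_norm
  · have h := (hFc.tendsto Lib.MP_ae9c87_an.Ag).comp Lib.MP_ae9c87_an.T_deriv_norm
    refine h.congr (fun t => ?_)
    rw [Function.comp_apply, hFr, map_sub, map_one]
  · have h := congrArg F Lib.MP_ae9c87_an.Ag_skew
    rw [← ContinuousLinearMap.star_eq_adjoint, map_star, map_neg,
      ContinuousLinearMap.star_eq_adjoint] at h
    exact h
  · rw [StarAlgEquiv.norm_map]
    exact Lib.MP_ae9c87_an.norm_gx
  · have h := Lib.MP_ae9c87_an.Ag_isUnit.map F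
    rwa [map_sub, map_one] at h
  · have h1 : F (Ring.inverse (Lib.MP_ae9c87_an.Ag - 1)) = Ring.inverse (F Lib.MP_ae9c87_an.Ag - 1) := by
      have h2 : F (Lib.MP_ae9c87_an.Ag - 1) = F Lib.MP_ae9c87_an.Ag - 1 := by rw [map_sub, map_one]
      rw [← h2]
      have h3 : F (Lib.MP_ae9c87_an.Ag - 1) * F (Ring.inverse (Lib.MP_ae9c87_an.Ag - 1)) = 1 := by
        rw [← map_mul, Ring.mul_inverse_cancel _ Lib.MP_ae9c87_an.Ag_isUnit, map_one]
      have h4 : F (Ring.inverse (Lib.MP_ae9c87_an.Ag - 1)) * F (Lib.MP_ae9c87_an.Ag - 1) = 1 := by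
        rw [← map_mul, Ring.inverse_mul_cancel _ Lib.MP_ae9c87_an.Ag_isUnit, map_one]
      have h5 : IsUnit (F (Lib.MP_ae9c87_an.Ag - 1)) := Lib.MP_ae9c87_an.Ag_isUnit.map F
      calc F (Ring.inverse (Lib.MP_ae9c87_an.Ag - 1))
          = F (Ring.inverse (Lib.MP_ae9c87_an.Ag - 1)) *
              (F (Lib.MP_ae9c87_an.Ag - 1) * Ring.inverse (F (Lib.MP_ae9c87_an.Ag - 1))) := by
            rw [Ring.mul_inverse_cancel _ h5, mul_one]
        _ = Ring.inverse (F (Lib.MP_ae9c87_an.Ag - 1)) := by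
            rw [← mul_assoc, h4, one_mul]
    rw [Lib.MP_ae9c87_an.Vg_eq, map_mul, h1, map_add, map_one]
  · intro x y
    have h := Lib.MP_ae9c87_an.Vg_weak (e.symm x) (e.symm y)
    refine h.congr (fun n => ?_)
    have h1 : (F Lib.MP_ae9c87_an.Vg) ^ n = F (Lib.MP_ae9c87_an.Vg ^ n) := (map_pow F _ n).symm
    rw [h1]
    change _ = inner ℂ (e ((Lib.MP_ae9c87_an.Vg ^ n) (e.symm x))) y
    rw [← e.inner_map_map, e.apply_symm_apply]
  · intro hT
    apply Lib.MP_ae9c87_an.T_not_weakly_stable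
    intro x y
    refine (hT (e x) (e y)).congr (fun t => ?_)
    change inner ℂ (e (Lib.MP_ae9c87_an.T t (e.symm (e x)))) (e y) = _
    rw [e.inner_map_map, e.symm_apply_apply]

end Pool.Agent.Results.MP_ae9c87_an.UnitaryGroup
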